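import Pool.Agent.Helper15.AF.Goals3
import Pool.Agent.Helper3.JT.TLJ
import Pool.Agent.Helper79.JT.PJ4

/-!
Project AF (MP_34c247_lc), packet AF-PM2: the error for `GoodY` is small.
-/

set_option autoImplicit false

namespace Pool.Agent.Helper36.AF

open Pool.Agent.Helper78.DT Pool.Agent.Helper78.JT Pool.Agent.Helper15.AF

theorem sq_le_two_pow (t : ℕ) (ht : 6 ≤ t) : (t + 1) ^ 2 ≤ 2 ^ t := by
  induction t, ht using Nat.le_induction with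
  | base => norm_num
  | succ t ht ih =>
    calc (t + 1 + 1) ^ 2 ≤ 2 * (t + 1) ^ 2 := by nlinarith
      _ ≤ 2 * 2 ^ t := Nat.mul_le_mul_left 2 ih
      _ = 2 ^ (t + 1) := by ring

/-- the comparison of the exponents -/
theorem pm2_exp (C c b t D : ℕ) (hD : 1 ≤ D) (ht : (2 * C + 18 + c) * b + 13 ≤ t) :
    (D * (3 + (C + 8) * b * (t + 1)) + 3 + (C + 10) * b * (t + 1)) + 7 + c * b * (t + 1) ≤
      D * 2 ^ t := by
  obtain ⟨B, hB⟩ : ∃ B, B = (2 * C + 18 + c) * b := ⟨_, rfl⟩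
  rw [← hB] at ht
  have h1 : 13 + B * (t + 1) ≤ 2 ^ t := by
    calc 13 + B * (t + 1) ≤ (B + 13) * (t + 1) := by nlinarith [Nat.zero_le t]
      _ ≤ (t + 1) * (t + 1) := Nat.mul_le_mul_right _ (by omega)
      _ = (t + 1) ^ 2 := by ring
      _ ≤ 2 ^ t := sq_le_two_pow t (by omega)
  calc (D * (3 + (C + 8) * b * (t + 1)) + 3 + (C + 10) * b * (t + 1)) + 7 + c * b * (t + 1)
      = D * (3 + (C + 8) * b * (t + 1)) + (10 + ((C + 10) * b + c * b) * (t + 1)) * 1 := by ring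
    _ ≤ D * (3 + (C + 8) * b * (t + 1)) + (10 + ((C + 10) * b + c * b) * (t + 1)) * D :=
        Nat.add_le_add_left (Nat.mul_le_mul_left _ hD) _
    _ = D * (13 + B * (t + 1)) := by rw [hB]; ring
    _ ≤ D * 2 ^ t := Nat.mul_le_mul_left D h1

/-- the estimate in the natural numbers -/
theorem pm2_nat (C c b L P K kV t m ρ D : ℕ) (hL : L < 2 ^ (b * (t + 1)))
    (hK : K ≤ L ^ 2) (hP : P + 1 ≤ 4 * L ^ (C + 8)) (hkV : kV + 1 ≤ 4 * L ^ (C + 8))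
    (hρ : ρ ≤ D) (hD : 1 ≤ D) (hm : m = D * 2 ^ t) (ht : (2 * C + 18 + c) * b + 13 ≤ t) :
    K * (2 ^ ρ * (kV + 1) ^ D + P * (2 ^ ρ * (P + 1) ^ D)) * (2 * (64 * L ^ c)) ≤ 2 ^ m := by
  obtain ⟨w, hw⟩ : ∃ w, w = 2 + (C + 8) * b * (t + 1) := ⟨_, rfl⟩
  have h1 : 4 * L ^ (C + 8) ≤ 2 ^ w := by
    calc 4 * L ^ (C + 8) ≤ 4 * (2 ^ (b * (t + 1))) ^ (C + 8) :=
          Nat.mul_le_mul_left 4 (Nat.pow_le_pow_left hL.le _)
      _ = 2 ^ w := by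
        rw [← pow_mul, hw, pow_add]
        have : b * (t + 1) * (C + 8) = (C + 8) * b * (t + 1) := by ring
        rw [this]
        norm_num
  have h2 : L ^ c ≤ 2 ^ (c * b * (t + 1)) := by
    calc L ^ c ≤ (2 ^ (b * (t + 1))) ^ c := Nat.pow_le_pow_left hL.le _
      _ = 2 ^ (c * b * (t + 1)) := by
        rw [← pow_mul]
        congr 1
        ring
  have h3 : K ≤ 2 ^ (2 * b * (t + 1)) := by
    calc K ≤ L ^ 2 := hK
      _ ≤ (2 ^ (b * (t + 1))) ^ 2 := Nat.pow_le_pow_left hL.le _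
      _ = 2 ^ (2 * b * (t + 1)) := by
        rw [← pow_mul]
        congr 1
        ring
  have h4 : ∀ x : ℕ, x + 1 ≤ 2 ^ w → 2 ^ ρ * (x + 1) ^ D ≤ 2 ^ (D + w * D) := by
    intro x hx
    rw [pow_add, pow_mul]
    exact Nat.mul_le_mul (Nat.pow_le_pow_right (by norm_num) hρ) (Nat.pow_le_pow_left hx D)
  have h5 : 2 ^ ρ * (kV + 1) ^ D + P * (2 ^ ρ * (P + 1) ^ D) ≤ 2 ^ (w + (D + w * D) + 1) := by
    have ha := h4 kV (hkV.trans h1)
    have hb : P * (2 ^ ρ * (P + 1) ^ D) ≤ 2 ^ w * 2 ^ (D + w * D) :=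
      Nat.mul_le_mul ((Nat.le_succ P).trans (hP.trans h1)) (h4 P (hP.trans h1))
    have hc : 2 ^ (D + w * D) ≤ 2 ^ (w + (D + w * D)) :=
      Nat.pow_le_pow_right (by norm_num) (Nat.le_add_left _ _)
    rw [← pow_add] at hb
    rw [pow_succ]
    omega
  calc K * (2 ^ ρ * (kV + 1) ^ D + P * (2 ^ ρ * (P + 1) ^ D)) * (2 * (64 * L ^ c))
      ≤ 2 ^ (2 * b * (t + 1)) * 2 ^ (w + (D + w * D) + 1) * (2 ^ 7 * 2 ^ (c * b * (t + 1))) := by
        refine Nat.mul_le_mul (Nat.mul_le_mul h3 h5) ?_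
        calc 2 * (64 * L ^ c) = 2 ^ 7 * L ^ c := by ring
          _ ≤ 2 ^ 7 * 2 ^ (c * b * (t + 1)) := Nat.mul_le_mul_left _ h2
    _ = 2 ^ ((D * (3 + (C + 8) * b * (t + 1)) + 3 + (C + 10) * b * (t + 1)) + 7 +
          c * b * (t + 1)) := by
        rw [← pow_add, ← pow_add, ← pow_add, hw]
        congr 1
        ring
    _ ≤ 2 ^ m := by
        rw [hm]
        exact Nat.pow_le_pow_right (by norm_num) (pm2_exp C c b t D hD ht)

/-- the second factor -/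
theorem pm2_two (L m : ℕ) (hL : 1 ≤ L) (hm : m ≤ L) :
    (((2 ^ (L + 2) : ℕ) : ℝ) + 1) / (Qk (8 * L) : ℝ) ≤ 1 / 2 ^ m := by
  have h1 : 2 ^ m * (2 ^ (L + 2) + 1) + 1 ≤ 2 ^ (8 * L) := by
    have ha : 2 ^ m ≤ 2 ^ L := Nat.pow_le_pow_right (by norm_num) hm
    have hb : 2 ^ (L + 2) + 1 ≤ 2 ^ (L + 3) := by
      have : 1 ≤ 2 ^ (L + 2) := Nat.one_le_two_pow
      rw [pow_succ 2 (L + 2)]
      omega
    have hc : 2 ^ m * (2 ^ (L + 2) + 1) ≤ 2 ^ (8 * L - 1) := by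
      calc 2 ^ m * (2 ^ (L + 2) + 1) ≤ 2 ^ L * 2 ^ (L + 3) := Nat.mul_le_mul ha hb
        _ = 2 ^ (L + (L + 3)) := by rw [← pow_add]
        _ ≤ 2 ^ (8 * L - 1) := Nat.pow_le_pow_right (by norm_num) (by omega)
    have hd : 2 ^ (8 * L) = 2 ^ (8 * L - 1) * 2 := by
      rw [← pow_succ]
      congr 1
      omega
    have he : 1 ≤ 2 ^ (8 * L - 1) := Nat.one_le_two_pow
    omega
  have h2 : 2 ^ m * (2 ^ (L + 2) + 1) ≤ Qk (8 * L) := by
    unfold Qk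
    omega
  have h3 : (0 : ℝ) < (Qk (8 * L) : ℝ) := by
    have : 0 < 2 ^ m * (2 ^ (L + 2) + 1) := by positivity
    exact_mod_cast lt_of_lt_of_le this h2
  have h4 : (2 : ℝ) ^ m * (((2 ^ (L + 2) : ℕ) : ℝ) + 1) ≤ (Qk (8 * L) : ℝ) := by
    exact_mod_cast h2
  rw [div_le_div_iff₀ h3 (by positivity)]
  linarith

theorem pm2_of (hT : TljStmt) (hPj4 : Pj4Stmt) (hPm1 : Pm1Stmt) : Pm2Stmt := by
  intro c a e β ha
  obtain ⟨hT1, hT2, -⟩ := hT a e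
  obtain ⟨L0, hL0⟩ := hT2 ((2 * cM c + 18 + c) * bb a e + 13)
  obtain ⟨L1, hL1⟩ := hPj4 (cM c) a e β
  obtain ⟨L2, hL2⟩ := hPm1 c a e ha
  refine ⟨max (max L0 L1) (max L2 1), fun L hL r hr => ?_⟩
  have hLa : L0 ≤ L := le_trans (le_trans (le_max_left _ _) (le_max_left _ _)) hL
  have hLb : L1 ≤ L := le_trans (le_trans (le_max_right _ _) (le_max_left _ _)) hL
  have hLc : L2 ≤ L := le_trans (le_trans (le_max_left _ _) (le_max_right _ _)) hL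
  have hLone : 1 ≤ L := le_trans (le_trans (le_max_right _ _) (le_max_right _ _)) hL
  have ht := hL0 L hLa
  obtain ⟨_, hK, -⟩ := hL1 L hLb
  obtain ⟨hρ, ⟨hmL, _⟩, -⟩ := hL2 L hLc r hr
  obtain ⟨_, hLt, -⟩ := hT1 L hLone
  have hpos : 1 ≤ L ^ (cM c + 8) := Nat.one_le_pow _ _ hLone
  have hP : Pj (cM c) L + 1 ≤ 4 * L ^ (cM c + 8) := by
    have : Pj (cM c) L ≤ 2 * L ^ (cM c + 8) :=
      (Pool.Agent.Helper8.DT.npr (L ^ (cM c + 8)) (by positivity)).2.2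
    omega
  have hkV : kVj c L + 1 ≤ 4 * L ^ (cM c + 8) := by
    have h1 : L ^ (c + 6) ≤ L ^ (cM c + 8) :=
      Nat.pow_le_pow_right hLone (by unfold cM; omega)
    unfold kVj
    omega
  have hD : 1 ≤ Dj a e L := Nat.one_le_two_pow
  have key := pm2_nat (cM c) c (bb a e) L (Pj (cM c) L) (Kj (cM c) a β e L) (kVj c L) (tj a e L)
    (mj a e L) (r * C0j c L) (Dj a e L) hLt hK hP hkV hρ hD rfl ht
  have h2 := pm2_two L (mj a e L) hLone hmL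
  have hLr : (0 : ℝ) < (L : ℝ) := by exact_mod_cast hLone
  generalize hX : (2 : ℝ) ^ (r * C0j c L) * ((kVj c L : ℝ) + 1) ^ Dj a e L +
    (Pj (cM c) L : ℝ) * (2 ^ (r * C0j c L) * ((Pj (cM c) L : ℝ) + 1) ^ Dj a e L) = X
  have key' : (Kj (cM c) a β e L : ℝ) * X * (2 * (64 * (L : ℝ) ^ c)) ≤ 2 ^ mj a e L := by
    rw [← hX]
    exact_mod_cast key
  have hX0 : 0 ≤ X := by
    rw [← hX]
    positivity
  have h3 : errY (Pj (cM c) L) (mj a e L) (r * C0j c L) (Dj a e L) (kVj c L)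
      (2 ^ (L + 2)) (Qk (8 * L)) ≤ X * (2 / 2 ^ mj a e L) := by
    unfold errY
    rw [hX]
    refine mul_le_mul_of_nonneg_left ?_ hX0
    calc (1 : ℝ) / 2 ^ mj a e L + (((2 ^ (L + 2) : ℕ) : ℝ) + 1) / (Qk (8 * L) : ℝ)
        ≤ 1 / 2 ^ mj a e L + 1 / 2 ^ mj a e L := by linarith
      _ = 2 / 2 ^ mj a e L := by ring
  calc (Kj (cM c) a β e L : ℝ) * errY (Pj (cM c) L) (mj a e L) (r * C0j c L) (Dj a e L)
        (kVj c L) (2 ^ (L + 2)) (Qk (8 * L))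
      ≤ (Kj (cM c) a β e L : ℝ) * (X * (2 / 2 ^ mj a e L)) :=
        mul_le_mul_of_nonneg_left h3 (Nat.cast_nonneg _)
    _ = ((Kj (cM c) a β e L : ℝ) * X * 2) / 2 ^ mj a e L := by ring
    _ ≤ 1 / (64 * (L : ℝ) ^ c) := by
        rw [div_le_div_iff₀ (by positivity) (by positivity), one_mul]
        calc (Kj (cM c) a β e L : ℝ) * X * 2 * (64 * (L : ℝ) ^ c)
            = (Kj (cM c) a β e L : ℝ) * X * (2 * (64 * (L : ℝ) ^ c)) := by ring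
          _ ≤ 2 ^ mj a e L := key'

/-- **PM2.** -/
theorem pm2 (hPm1 : Pm1Stmt) : Pm2Stmt :=
  pm2_of Pool.Agent.Helper3.JT.tlj
    (Pool.Agent.Helper79.JT.pj4 Pool.Agent.Helper3.JT.tlj) hPm1

end Pool.Agent.Helper36.AF
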