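import Mathlib
import Pool.Agent.Helper26.AF.Defs
import Pool.Agent.Helper26.AF.Goals3

/-!
Project AF (MP_af6c86_pr), packet SSM: the explicit double sum over excess and core size is bounded.
-/

namespace Pool.Agent.Helper36.AF

open Finset Filter Topology Pool.Agent.Helper26.AF

/-- `y ^ m * exp (-β y)` is at most its maximum. -/
theorem pow_exp_le (m : ℕ) (M β y : ℝ) (hM : 0 < M) (hmM : (m : ℝ) ≤ M) (hβ : 0 < β) (hy : 0 ≤ y) :
    y ^ m ≤ (M / (β * Real.exp 1)) ^ m * Real.exp (β * y) := by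
  have h1 : β * y / M ≤ Real.exp (β * y / M - 1) := by
    have := Real.add_one_le_exp (β * y / M - 1)
    linarith
  have h2 : y ≤ M / (β * Real.exp 1) * Real.exp (β * y / M) := by
    rw [Real.exp_sub] at h1
    have he : 0 < Real.exp 1 := Real.exp_pos 1
    have h3 : y = M / β * (β * y / M) := by field_simp
    calc y = M / β * (β * y / M) := h3
      _ ≤ M / β * (Real.exp (β * y / M) / Real.exp 1) := by gcongr
      _ = M / (β * Real.exp 1) * Real.exp (β * y / M) := by field_simp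
  calc y ^ m ≤ (M / (β * Real.exp 1) * Real.exp (β * y / M)) ^ m := by gcongr
    _ = (M / (β * Real.exp 1)) ^ m * Real.exp (m * (β * y / M)) := by
        rw [mul_pow, ← Real.exp_nat_mul]
    _ ≤ (M / (β * Real.exp 1)) ^ m * Real.exp (β * y) := by
        have hby : 0 ≤ β * y := by positivity
        apply mul_le_mul_of_nonneg_left _ (by positivity)
        apply Real.exp_le_exp.mpr
        calc (m : ℝ) * (β * y / M) ≤ M * (β * y / M) := by gcongr
          _ = β * y := by field_simp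

/-- The square of `s ^ (3/2) / √n`. -/
theorem a_sq (n s : ℕ) : ((s : ℝ) ^ ((3 : ℝ) / 2) / Real.sqrt n) ^ 2 = (s : ℝ) ^ 3 / n := by
  rw [div_pow, Real.sq_sqrt (Nat.cast_nonneg n), ← Real.rpow_natCast ((s : ℝ) ^ ((3 : ℝ) / 2)) 2,
    ← Real.rpow_mul (Nat.cast_nonneg s)]
  norm_num

/-- `(1 + a²)² ≤ (4/ε)⁴ exp (ε a)`. -/
theorem quart (ε a : ℝ) (hε : 0 < ε) (hε4 : ε ≤ 4) (ha : 0 ≤ a) :
    (1 + a ^ 2) ^ 2 ≤ (4 / ε) ^ 4 * Real.exp (ε * a) := by
  have h1 : 1 + a ≤ 4 / ε * Real.exp (ε * a / 4) := by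
    have h := Real.add_one_le_exp (ε * a / 4)
    have h4 : 1 ≤ 4 / ε := by rw [le_div_iff₀ hε]; linarith
    calc 1 + a ≤ 4 / ε + a := by linarith
      _ = 4 / ε * (ε * a / 4 + 1) := by field_simp; ring
      _ ≤ 4 / ε * Real.exp (ε * a / 4) := by gcongr
  calc (1 + a ^ 2) ^ 2 ≤ ((1 + a) ^ 2) ^ 2 := by
        gcongr
        nlinarith
    _ = (1 + a) ^ 4 := by ring
    _ ≤ (4 / ε * Real.exp (ε * a / 4)) ^ 4 := by gcongr
    _ = (4 / ε) ^ 4 * Real.exp (ε * a) := by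
        rw [mul_pow, ← Real.exp_nat_mul]
        congr 2
        push_cast
        ring

/-- The sum over the size of the core. -/
theorem ssum (ε : ℝ) (hε : 0 < ε) (hε4 : ε ≤ 4) (n : ℕ) (hn : 1 ≤ n) (N : ℕ) :
    ∑ s ∈ Icc 1 N, (s : ℝ) ^ 2 * Real.exp (-(ε * ((s : ℝ) ^ ((3 : ℝ) / 2) / Real.sqrt n))) ≤
      (4 / ε) ^ 4 * n := by
  have hn0 : (0 : ℝ) < n := by exact_mod_cast hn
  have key : ∀ N : ℕ,
      ∑ s ∈ Icc 1 N, (s : ℝ) ^ 2 * Real.exp (-(ε * ((s : ℝ) ^ ((3 : ℝ) / 2) / Real.sqrt n))) ≤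
      (4 / ε) ^ 4 * n * (1 - 1 / (1 + (N : ℝ) ^ 3 / n)) := by
    intro N
    induction N with
    | zero => simp
    | succ N ih =>
      rw [Finset.sum_Icc_succ_top (by omega)]
      set a : ℝ := (((N + 1 : ℕ) : ℝ) ^ ((3 : ℝ) / 2) / Real.sqrt n) with ha
      have ha0 : 0 ≤ a := by positivity
      have ha2 : a ^ 2 = ((N + 1 : ℕ) : ℝ) ^ 3 / n := a_sq n (N + 1)
      have hq := quart ε a hε hε4 ha0
      rw [ha2] at hq
      have hexp : Real.exp (-(ε * a)) ≤ (4 / ε) ^ 4 / (1 + ((N + 1 : ℕ) : ℝ) ^ 3 / n) ^ 2 := by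
        rw [Real.exp_neg, le_div_iff₀ (by positivity), inv_mul_le_iff₀ (Real.exp_pos _)]
        linarith
      have hstep : ((N + 1 : ℕ) : ℝ) ^ 2 * ((4 / ε) ^ 4 / (1 + ((N + 1 : ℕ) : ℝ) ^ 3 / n) ^ 2) ≤
          (4 / ε) ^ 4 * n * (1 / (1 + (N : ℝ) ^ 3 / n) - 1 / (1 + ((N + 1 : ℕ) : ℝ) ^ 3 / n)) := by
        have hN0 : (0 : ℝ) ≤ N := Nat.cast_nonneg N
        have hb1 : 0 < 1 + (N : ℝ) ^ 3 / n := by positivity
        have hb2 : 0 < 1 + ((N + 1 : ℕ) : ℝ) ^ 3 / n := by positivity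
        have hle : 1 + (N : ℝ) ^ 3 / n ≤ 1 + ((N + 1 : ℕ) : ℝ) ^ 3 / n := by
          gcongr
          push_cast
          linarith
        have hdiff : ((N + 1 : ℕ) : ℝ) ^ 2 ≤
            n * ((1 + ((N + 1 : ℕ) : ℝ) ^ 3 / n) - (1 + (N : ℝ) ^ 3 / n)) := by
          have : n * ((1 + ((N + 1 : ℕ) : ℝ) ^ 3 / n) - (1 + (N : ℝ) ^ 3 / n)) =
              ((N + 1 : ℕ) : ℝ) ^ 3 - (N : ℝ) ^ 3 := by field_simp; ring
          rw [this]
          push_cast
          nlinarith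
        have hC : 0 < (4 / ε) ^ 4 := by positivity
        calc ((N + 1 : ℕ) : ℝ) ^ 2 * ((4 / ε) ^ 4 / (1 + ((N + 1 : ℕ) : ℝ) ^ 3 / n) ^ 2)
            ≤ (n * ((1 + ((N + 1 : ℕ) : ℝ) ^ 3 / n) - (1 + (N : ℝ) ^ 3 / n))) *
              ((4 / ε) ^ 4 / (1 + ((N + 1 : ℕ) : ℝ) ^ 3 / n) ^ 2) := by gcongr
          _ ≤ (n * ((1 + ((N + 1 : ℕ) : ℝ) ^ 3 / n) - (1 + (N : ℝ) ^ 3 / n))) *
              ((4 / ε) ^ 4 / ((1 + (N : ℝ) ^ 3 / n) * (1 + ((N + 1 : ℕ) : ℝ) ^ 3 / n))) := by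
                have h0 : 0 ≤ (n * ((1 + ((N + 1 : ℕ) : ℝ) ^ 3 / n) - (1 + (N : ℝ) ^ 3 / n))) :=
                  le_trans (by positivity) hdiff
                apply mul_le_mul_of_nonneg_left _ h0
                apply div_le_div_of_nonneg_left hC.le (by positivity)
                rw [sq]
                exact mul_le_mul_of_nonneg_right hle hb2.le
          _ = (4 / ε) ^ 4 * n *
              (1 / (1 + (N : ℝ) ^ 3 / n) - 1 / (1 + ((N + 1 : ℕ) : ℝ) ^ 3 / n)) := by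
                have e1 := hb1.ne'
                have e2 := hb2.ne'
                generalize 1 + (N : ℝ) ^ 3 / n = u at *
                generalize 1 + ((N + 1 : ℕ) : ℝ) ^ 3 / n = v at *
                generalize (4 / ε) ^ 4 = w at *
                field_simp
      calc _ ≤ (4 / ε) ^ 4 * n * (1 - 1 / (1 + (N : ℝ) ^ 3 / n)) +
            ((N + 1 : ℕ) : ℝ) ^ 2 * ((4 / ε) ^ 4 / (1 + ((N + 1 : ℕ) : ℝ) ^ 3 / n) ^ 2) := by
              gcongr
        _ ≤ (4 / ε) ^ 4 * n * (1 - 1 / (1 + (N : ℝ) ^ 3 / n)) +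
          (4 / ε) ^ 4 * n * (1 / (1 + (N : ℝ) ^ 3 / n) - 1 / (1 + ((N + 1 : ℕ) : ℝ) ^ 3 / n)) := by
              linarith
        _ = (4 / ε) ^ 4 * n * (1 - 1 / (1 + ((N + 1 : ℕ) : ℝ) ^ 3 / n)) := by ring
  refine (key N).trans ?_
  have : 0 ≤ 1 / (1 + (N : ℝ) ^ 3 / n) := by positivity
  have h0 : 0 ≤ (4 / ε) ^ 4 * n := by positivity
  nlinarith

/-- The bound of one term. -/
theorem term_le (δ : ℝ) (hδ : 0 < δ) (hδ1 : δ ≤ 1 / 10) (n r s : ℕ) (hn : 1 ≤ n) (hr : 1 ≤ r)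
    (hs : 1 ≤ s) :
    ((s : ℝ) + r) ^ (3 * r - 1) * Real.exp (36 * (r : ℝ) ^ 2 / ((s : ℝ) + r)) *
      Real.exp (-(1 - 2 * δ) * (2 / 3) * ((s : ℝ) ^ ((3 : ℝ) / 2) / Real.sqrt n)) ≤
    Real.exp (39 * δ * r) * (3 * r / ((1 - 3 * δ) * Real.exp 1)) ^ (2 * r) * (n : ℝ) ^ (r - 1) *
      ((s : ℝ) ^ 2 * Real.exp (-((2 / 3 * δ) * ((s : ℝ) ^ ((3 : ℝ) / 2) / Real.sqrt n)))) +
    (if (s : ℝ) < r / δ then ((1 / δ + 1) * r) ^ (3 * r - 1) * Real.exp (36 * r) else 0) := by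
  have hr0 : (0 : ℝ) < r := by exact_mod_cast hr
  have hr1 : (1 : ℝ) ≤ r := by exact_mod_cast hr
  have hs0 : (0 : ℝ) < s := by exact_mod_cast hs
  have hn0 : (0 : ℝ) < n := by exact_mod_cast hn
  have hd3 : 0 < 1 - 3 * δ := by linarith
  set a : ℝ := ((s : ℝ) ^ ((3 : ℝ) / 2) / Real.sqrt n) with ha
  have ha0 : 0 ≤ a := by positivity
  have ha2 : a ^ 2 = (s : ℝ) ^ 3 / n := a_sq n s
  split_ifs with hcase
  · -- small `s`
    have h1 : ((s : ℝ) + r) ^ (3 * r - 1) ≤ ((1 / δ + 1) * r) ^ (3 * r - 1) := by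
      have : (s : ℝ) + r ≤ (1 / δ + 1) * r := by
        have : (1 / δ + 1) * r = r / δ + r := by ring
        rw [this]
        linarith
      gcongr
    have h2 : Real.exp (36 * (r : ℝ) ^ 2 / ((s : ℝ) + r)) ≤ Real.exp (36 * r) := by
      apply Real.exp_le_exp.mpr
      rw [div_le_iff₀ (by positivity)]
      nlinarith
    have h3 : Real.exp (-(1 - 2 * δ) * (2 / 3) * a) ≤ 1 := by
      apply Real.exp_le_one_iff.mpr
      have : 0 ≤ (1 - 2 * δ) * (2 / 3) * a := by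
        have : 0 ≤ 1 - 2 * δ := by linarith
        positivity
      linarith
    have h4 : 0 ≤ Real.exp (39 * δ * r) * (3 * r / ((1 - 3 * δ) * Real.exp 1)) ^ (2 * r) *
      (n : ℝ) ^ (r - 1) * ((s : ℝ) ^ 2 * Real.exp (-((2 / 3 * δ) * a))) := by positivity
    calc ((s : ℝ) + r) ^ (3 * r - 1) * Real.exp (36 * (r : ℝ) ^ 2 / ((s : ℝ) + r)) *
        Real.exp (-(1 - 2 * δ) * (2 / 3) * a)
        ≤ ((1 / δ + 1) * r) ^ (3 * r - 1) * Real.exp (36 * r) * 1 := by gcongr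
      _ = ((1 / δ + 1) * r) ^ (3 * r - 1) * Real.exp (36 * r) := mul_one _
      _ ≤ _ := by linarith
  · -- large `s`
    rw [add_zero]
    push Not at hcase
    have hrs : (r : ℝ) / s ≤ δ := by
      rw [div_le_iff₀ hδ] at hcase
      rw [div_le_iff₀ hs0]
      linarith
    have h1 : ((s : ℝ) + r) ^ (3 * r - 1) ≤ (s : ℝ) ^ (3 * r - 1) * Real.exp (3 * δ * r) := by
      have e1 : (s : ℝ) + r = s * (r / s + 1) := by field_simp; ring
      have e2 : (r : ℝ) / s + 1 ≤ Real.exp (r / s) := Real.add_one_le_exp _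
      calc ((s : ℝ) + r) ^ (3 * r - 1) = (s : ℝ) ^ (3 * r - 1) * (r / s + 1) ^ (3 * r - 1) := by
            rw [e1, mul_pow]
        _ ≤ (s : ℝ) ^ (3 * r - 1) * (Real.exp (r / s)) ^ (3 * r - 1) := by gcongr
        _ = (s : ℝ) ^ (3 * r - 1) * Real.exp ((3 * r - 1 : ℕ) * (r / s)) := by
            rw [← Real.exp_nat_mul]
        _ ≤ (s : ℝ) ^ (3 * r - 1) * Real.exp (3 * δ * r) := by
            apply mul_le_mul_of_nonneg_left _ (by positivity)
            apply Real.exp_le_exp.mpr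
            have e3 : ((3 * r - 1 : ℕ) : ℝ) ≤ 3 * r := by
              have : (3 * r - 1 : ℕ) ≤ 3 * r := by omega
              exact_mod_cast this
            calc ((3 * r - 1 : ℕ) : ℝ) * (r / s) ≤ (3 * r) * δ := by gcongr
              _ = 3 * δ * r := by ring
    have h2 : Real.exp (36 * (r : ℝ) ^ 2 / ((s : ℝ) + r)) ≤ Real.exp (36 * δ * r) := by
      apply Real.exp_le_exp.mpr
      rw [div_le_iff₀ (by positivity)]
      have : (r : ℝ) ≤ δ * s := by
        rw [div_le_iff₀ hs0] at hrs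
        exact hrs
      nlinarith [mul_pos hδ hr0]
    have h3 : (s : ℝ) ^ (3 * r - 1) = (s : ℝ) ^ 2 * ((n : ℝ) ^ (r - 1) * a ^ (2 * (r - 1))) := by
      have e1 : (s : ℝ) ^ 3 = n * a ^ 2 := by rw [ha2]; field_simp
      have e2 : 3 * r - 1 = 2 + 3 * (r - 1) := by omega
      rw [e2, pow_add, pow_mul, e1, mul_pow, ← pow_mul]
    have h4 := pow_exp_le (2 * (r - 1)) (2 * r) ((1 - 3 * δ) * (2 / 3)) a (by positivity)
      (by
        have : 2 * (r - 1) ≤ 2 * r := by omega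
        exact_mod_cast this) (by positivity) ha0
    have h5 : 2 * (r : ℝ) / ((1 - 3 * δ) * (2 / 3) * Real.exp 1) =
        3 * r / ((1 - 3 * δ) * Real.exp 1) := by
      have := Real.exp_pos 1
      field_simp
    rw [h5] at h4
    have h6 : (3 * (r : ℝ) / ((1 - 3 * δ) * Real.exp 1)) ^ (2 * (r - 1)) ≤
        (3 * (r : ℝ) / ((1 - 3 * δ) * Real.exp 1)) ^ (2 * r) := by
      apply pow_le_pow_right₀ _ (by omega)
      rw [le_div_iff₀ (by positivity)]
      have he := Real.exp_one_lt_d9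
      have he0 := Real.exp_pos 1
      nlinarith
    have h7 : Real.exp (-(1 - 2 * δ) * (2 / 3) * a) =
        Real.exp (-((1 - 3 * δ) * (2 / 3) * a)) * Real.exp (-((2 / 3 * δ) * a)) := by
      rw [← Real.exp_add]
      congr 1
      ring
    have h8 : a ^ (2 * (r - 1)) * Real.exp (-((1 - 3 * δ) * (2 / 3) * a)) ≤
        (3 * (r : ℝ) / ((1 - 3 * δ) * Real.exp 1)) ^ (2 * r) := by
      calc a ^ (2 * (r - 1)) * Real.exp (-((1 - 3 * δ) * (2 / 3) * a))
          ≤ ((3 * (r : ℝ) / ((1 - 3 * δ) * Real.exp 1)) ^ (2 * (r - 1)) *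
            Real.exp ((1 - 3 * δ) * (2 / 3) * a)) * Real.exp (-((1 - 3 * δ) * (2 / 3) * a)) := by
              gcongr
        _ = (3 * (r : ℝ) / ((1 - 3 * δ) * Real.exp 1)) ^ (2 * (r - 1)) := by
              rw [mul_assoc, ← Real.exp_add, add_neg_cancel, Real.exp_zero, mul_one]
        _ ≤ _ := h6
    have h9 : Real.exp (39 * δ * r) = Real.exp (3 * δ * r) * Real.exp (36 * δ * r) := by
      rw [← Real.exp_add]
      congr 1
      ring
    calc ((s : ℝ) + r) ^ (3 * r - 1) * Real.exp (36 * (r : ℝ) ^ 2 / ((s : ℝ) + r)) *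
        Real.exp (-(1 - 2 * δ) * (2 / 3) * a)
        ≤ ((s : ℝ) ^ (3 * r - 1) * Real.exp (3 * δ * r)) * Real.exp (36 * δ * r) *
          Real.exp (-(1 - 2 * δ) * (2 / 3) * a) := by gcongr
      _ = Real.exp (39 * δ * r) * (n : ℝ) ^ (r - 1) * ((s : ℝ) ^ 2 * Real.exp (-((2 / 3 * δ) * a))) *
          (a ^ (2 * (r - 1)) * Real.exp (-((1 - 3 * δ) * (2 / 3) * a))) := by
            rw [h3, h7, h9]
            ring
      _ ≤ Real.exp (39 * δ * r) * (n : ℝ) ^ (r - 1) * ((s : ℝ) ^ 2 * Real.exp (-((2 / 3 * δ) * a))) *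
          (3 * (r : ℝ) / ((1 - 3 * δ) * Real.exp 1)) ^ (2 * r) := by gcongr
      _ = _ := by ring

/-- The number of small `s`. -/
theorem small_sum (δ B : ℝ) (hδ : 0 < δ) (hB : 0 ≤ B) (n r : ℕ) :
    ∑ s ∈ Icc 1 n, (if (s : ℝ) < r / δ then B else 0) ≤ ((1 / δ + 1) * r) * B := by
  rw [← Finset.sum_filter, Finset.sum_const, nsmul_eq_mul]
  have h0 : (0 : ℝ) ≤ r / δ := by positivity
  have h1 : ((Icc 1 n).filter (fun s : ℕ => (s : ℝ) < r / δ)) ⊆ Icc 1 ⌊(r : ℝ) / δ⌋₊ := by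
    intro s hs
    rw [Finset.mem_filter, Finset.mem_Icc] at hs
    rw [Finset.mem_Icc]
    exact ⟨hs.1.1, Nat.le_floor hs.2.le⟩
  have h2 := Finset.card_le_card h1
  rw [Nat.card_Icc, Nat.add_sub_cancel] at h2
  have h3 : ((#((Icc 1 n).filter (fun s : ℕ => (s : ℝ) < r / δ)) : ℕ) : ℝ) ≤ r / δ :=
    le_trans (by exact_mod_cast h2) (Nat.floor_le h0)
  have h4 : (r : ℝ) / δ ≤ (1 / δ + 1) * r := by
    have : (1 / δ + 1) * r = r / δ + r := by ring
    rw [this]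
    have : (0 : ℝ) ≤ r := Nat.cast_nonneg r
    linarith
  exact mul_le_mul_of_nonneg_right (h3.trans h4) hB

/-- Finite sums of `r q ^ r` are bounded. -/
theorem geo (q : ℝ) (hq0 : 0 ≤ q) (hq1 : q < 1) :
    ∃ C : ℝ, 0 ≤ C ∧ ∀ N : ℕ, ∑ r ∈ Icc 1 N, (r : ℝ) * q ^ r ≤ C := by
  have hs : Summable (fun r : ℕ => (r : ℝ) * q ^ r) :=
    (hasSum_coe_mul_geometric_of_norm_lt_one
      (by rw [Real.norm_eq_abs, abs_of_nonneg hq0]; exact hq1)).summable
  refine ⟨∑' r : ℕ, (r : ℝ) * q ^ r, tsum_nonneg (fun r => by positivity), fun N => ?_⟩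
  exact hs.sum_le_tsum _ (fun r _ => by positivity)

/-- The choice of `δ`. -/
theorem exists_delta (t : ℝ) (ht1 : 1 < t) (ht2 : t < 2) : ∃ δ : ℝ, 0 < δ ∧ δ ≤ 1 / 10 ∧
    t / 2 * (1 + δ) * Real.exp (39 * δ) / (1 - 3 * δ) ^ 2 < 1 := by
  have hc : ContinuousAt (fun δ : ℝ => t / 2 * (1 + δ) * Real.exp (39 * δ) / (1 - 3 * δ) ^ 2) 0 := by
    apply ContinuousAt.div
    · fun_prop
    · fun_prop
    · norm_num
  have h0 : (fun δ : ℝ => t / 2 * (1 + δ) * Real.exp (39 * δ) / (1 - 3 * δ) ^ 2) 0 < 1 := by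
    simp
    linarith
  have hev := hc.eventually_lt_const h0
  rw [Metric.eventually_nhds_iff] at hev
  obtain ⟨ε, hε, hb⟩ := hev
  refine ⟨min (ε / 2) (1 / 10), by positivity, min_le_right _ _, ?_⟩
  apply hb
  rw [Real.dist_eq, sub_zero, abs_of_pos (by positivity)]
  exact lt_of_le_of_lt (min_le_left _ _) (by linarith)

theorem ee_nonneg (r : ℕ) : 0 ≤ ee r := by
  unfold ee
  positivity

theorem goalSSM (hEEB : StmtEEB) : StmtSSM := by
  intro t ht1 ht2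
  obtain ⟨δ, hδ, hδ1, hq⟩ := exists_delta t ht1 ht2
  have ht0 : 0 < t := by linarith
  have hd3 : 0 < 1 - 3 * δ := by linarith
  set q : ℝ := t / 2 * (1 + δ) * Real.exp (39 * δ) / (1 - 3 * δ) ^ 2 with hqdef
  have hq0 : 0 ≤ q := by positivity
  obtain ⟨C₁, hC₁, hgeo1⟩ := geo q hq0 hq
  obtain ⟨C₂, hC₂, hgeo2⟩ := geo (1 / 2) (by norm_num) (by norm_num)
  set L : ℝ := 1 / δ + 1 with hL
  have hL0 : 0 < L := by positivity
  set D : ℝ := t * (1 + δ) * L ^ 3 * Real.exp 38 / 18 with hD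
  have hD0 : 0 < D := by positivity
  set A : ℝ := (4 / (2 / 3 * δ)) ^ 4 with hA
  have hA0 : 0 < A := by positivity
  refine ⟨δ, hδ, by linarith, min (1 / 2) (1 / (2 * D)), by positivity,
    lt_of_le_of_lt (min_le_left _ _) (by norm_num), 3 * t * (A * C₁ + C₂) + 1, by positivity, 1, ?_⟩
  intro n hn
  have hn0 : (0 : ℝ) < n := by exact_mod_cast hn
  have hmain : ∀ r ∈ Icc 1 ⌊min (1 / 2) (1 / (2 * D)) * (n : ℝ)⌋₊,
      t ^ (r + 1) * (1 + δ) ^ r / (n : ℝ) ^ r *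
    ∑ s ∈ Icc 1 n, ee r / ((3 * r - 1).factorial : ℝ) * ((s : ℝ) + r) ^ (3 * r - 1) *
      Real.exp (36 * (r : ℝ) ^ 2 / ((s : ℝ) + r)) *
      Real.exp (-(1 - 2 * δ) * (2 / 3) * ((s : ℝ) ^ ((3 : ℝ) / 2) / Real.sqrt n)) ≤
      3 * t * (A * ((r : ℝ) * q ^ r) + (r : ℝ) * (1 / 2) ^ r) := by
    intro r hr
    rw [Finset.mem_Icc] at hr
    obtain ⟨hr1, hr2⟩ := hr
    have hr0 : (0 : ℝ) < r := by exact_mod_cast hr1
    have hrn : (r : ℝ) ≤ 1 / (2 * D) * n := by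
      have h1 : (r : ℝ) ≤ min (1 / 2) (1 / (2 * D)) * (n : ℝ) :=
        le_trans (by exact_mod_cast hr2) (Nat.floor_le (by positivity))
      exact h1.trans (mul_le_mul_of_nonneg_right (min_le_right _ _) hn0.le)
    set c : ℝ := ee r / ((3 * r - 1).factorial : ℝ) with hc
    have hc0 : 0 ≤ c := div_nonneg (ee_nonneg r) (by positivity)
    have hE := (hEEB r hr1).1
    rw [← hc] at hE
    set E : ℝ := c * (3 * (r : ℝ)) ^ (2 * r) * Real.exp (-(2 * (r : ℝ))) with hEdef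
    have hE0 : 0 ≤ E := by positivity
    -- the inner sum
    have hinner : ∑ s ∈ Icc 1 n, c * ((s : ℝ) + r) ^ (3 * r - 1) *
      Real.exp (36 * (r : ℝ) ^ 2 / ((s : ℝ) + r)) *
      Real.exp (-(1 - 2 * δ) * (2 / 3) * ((s : ℝ) ^ ((3 : ℝ) / 2) / Real.sqrt n)) ≤
      c * (Real.exp (39 * δ * r) * (3 * r / ((1 - 3 * δ) * Real.exp 1)) ^ (2 * r) *
        (n : ℝ) ^ (r - 1) * (A * n)) + c * ((L * r) * ((L * r) ^ (3 * r - 1) * Real.exp (36 * r))) := by
      calc ∑ s ∈ Icc 1 n, c * ((s : ℝ) + r) ^ (3 * r - 1) *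
          Real.exp (36 * (r : ℝ) ^ 2 / ((s : ℝ) + r)) *
          Real.exp (-(1 - 2 * δ) * (2 / 3) * ((s : ℝ) ^ ((3 : ℝ) / 2) / Real.sqrt n))
          ≤ ∑ s ∈ Icc 1 n, (c * (Real.exp (39 * δ * r) *
            (3 * r / ((1 - 3 * δ) * Real.exp 1)) ^ (2 * r) * (n : ℝ) ^ (r - 1)) *
            ((s : ℝ) ^ 2 * Real.exp (-((2 / 3 * δ) * ((s : ℝ) ^ ((3 : ℝ) / 2) / Real.sqrt n)))) +
            c * (if (s : ℝ) < r / δ then (L * r) ^ (3 * r - 1) * Real.exp (36 * r) else 0)) := by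
              apply Finset.sum_le_sum
              intro s hs
              rw [Finset.mem_Icc] at hs
              have h := mul_le_mul_of_nonneg_left (term_le δ hδ hδ1 n r s hn hr1 hs.1) hc0
              rw [← hL] at h
              calc _ = c * (((s : ℝ) + r) ^ (3 * r - 1) *
                Real.exp (36 * (r : ℝ) ^ 2 / ((s : ℝ) + r)) *
                Real.exp (-(1 - 2 * δ) * (2 / 3) * ((s : ℝ) ^ ((3 : ℝ) / 2) / Real.sqrt n))) := by
                    ring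
                _ ≤ _ := h
                _ = _ := by ring
        _ = c * (Real.exp (39 * δ * r) *
            (3 * r / ((1 - 3 * δ) * Real.exp 1)) ^ (2 * r) * (n : ℝ) ^ (r - 1)) *
            (∑ s ∈ Icc 1 n, (s : ℝ) ^ 2 *
              Real.exp (-((2 / 3 * δ) * ((s : ℝ) ^ ((3 : ℝ) / 2) / Real.sqrt n)))) +
            c * (∑ s ∈ Icc 1 n, (if (s : ℝ) < r / δ then
              (L * r) ^ (3 * r - 1) * Real.exp (36 * r) else 0)) := by
              rw [Finset.sum_add_distrib, ← Finset.mul_sum, ← Finset.mul_sum]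
        _ ≤ c * (Real.exp (39 * δ * r) *
            (3 * r / ((1 - 3 * δ) * Real.exp 1)) ^ (2 * r) * (n : ℝ) ^ (r - 1)) * (A * n) +
            c * ((L * r) * ((L * r) ^ (3 * r - 1) * Real.exp (36 * r))) := by
              apply add_le_add
              · apply mul_le_mul_of_nonneg_left _ (by positivity)
                exact ssum (2 / 3 * δ) (by positivity) (by linarith) n hn n
              · apply mul_le_mul_of_nonneg_left _ hc0
                exact small_sum δ _ hδ (by positivity) n r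
        _ = _ := by ring
    -- rewriting of the two parts
    have e1 : (n : ℝ) ^ (r - 1) * n = (n : ℝ) ^ r := by
      rw [← pow_succ, Nat.sub_add_cancel hr1]
    have e2 : (L * r) * (L * r) ^ (3 * r - 1) = (L * r) ^ (3 * r) := by
      rw [← pow_succ']
      congr 1
      omega
    have p1 : c * (Real.exp (39 * δ * r) * (3 * r / ((1 - 3 * δ) * Real.exp 1)) ^ (2 * r) *
        (n : ℝ) ^ (r - 1) * (A * n)) =
        A * (n : ℝ) ^ r * (Real.exp (39 * δ) / (1 - 3 * δ) ^ 2) ^ r * E := by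
      have x1 : Real.exp (39 * δ * r) = Real.exp (39 * δ) ^ r := by
        rw [← Real.exp_nat_mul]
        congr 1
        ring
      have x2 : Real.exp (-(2 * (r : ℝ))) = (1 / Real.exp 1) ^ (2 * r) := by
        rw [one_div, ← Real.exp_neg, ← Real.exp_nat_mul]
        congr 1
        push_cast
        ring
      have x3 : (3 * r / ((1 - 3 * δ) * Real.exp 1)) ^ (2 * r) =
          (3 * (r : ℝ)) ^ (2 * r) * (1 / Real.exp 1) ^ (2 * r) * (1 / (1 - 3 * δ) ^ 2) ^ r := by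
        rw [← mul_pow]
        rw [show (1 / (1 - 3 * δ) ^ 2) ^ r = (1 / (1 - 3 * δ)) ^ (2 * r) by
          rw [pow_mul]; congr 1; rw [div_pow, one_pow]]
        rw [← mul_pow]
        congr 1
        field_simp
      have x4 : (Real.exp (39 * δ) / (1 - 3 * δ) ^ 2) ^ r =
          Real.exp (39 * δ) ^ r * (1 / (1 - 3 * δ) ^ 2) ^ r := by
        rw [← mul_pow]
        congr 1
        ring
      rw [hEdef, x1, x2, x3, x4, ← e1]
      ring
    have p2 : c * ((L * r) * ((L * r) ^ (3 * r - 1) * Real.exp (36 * r))) =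
        (L ^ 3 * Real.exp 38 / 9 * r) ^ r * E := by
      have x1 : Real.exp (36 * r) = Real.exp 38 ^ r * Real.exp (-(2 * (r : ℝ))) := by
        rw [← Real.exp_nat_mul, ← Real.exp_add]
        congr 1
        ring
      have x2 : (L * (r : ℝ)) ^ (3 * r) = (L ^ 3 / 9 * r) ^ r * (3 * (r : ℝ)) ^ (2 * r) := by
        rw [pow_mul, pow_mul, ← mul_pow]
        congr 1
        ring
      rw [← mul_assoc (L * (r : ℝ)), e2, x1, x2, hEdef]
      rw [show L ^ 3 * Real.exp 38 / 9 * (r : ℝ) = (L ^ 3 / 9 * r) * Real.exp 38 by ring, mul_pow]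
      ring
    rw [p1, p2] at hinner
    have hpre : 0 ≤ t ^ (r + 1) * (1 + δ) ^ r / (n : ℝ) ^ r := by positivity
    calc t ^ (r + 1) * (1 + δ) ^ r / (n : ℝ) ^ r *
        ∑ s ∈ Icc 1 n, c * ((s : ℝ) + r) ^ (3 * r - 1) *
          Real.exp (36 * (r : ℝ) ^ 2 / ((s : ℝ) + r)) *
          Real.exp (-(1 - 2 * δ) * (2 / 3) * ((s : ℝ) ^ ((3 : ℝ) / 2) / Real.sqrt n))
        ≤ t ^ (r + 1) * (1 + δ) ^ r / (n : ℝ) ^ r *
          (A * (n : ℝ) ^ r * (Real.exp (39 * δ) / (1 - 3 * δ) ^ 2) ^ r * E +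
            (L ^ 3 * Real.exp 38 / 9 * r) ^ r * E) := mul_le_mul_of_nonneg_left hinner hpre
      _ ≤ t ^ (r + 1) * (1 + δ) ^ r / (n : ℝ) ^ r *
          (A * (n : ℝ) ^ r * (Real.exp (39 * δ) / (1 - 3 * δ) ^ 2) ^ r * (3 * r / 2 ^ r) +
            (L ^ 3 * Real.exp 38 / 9 * r) ^ r * (3 * r / 2 ^ r)) := by
            apply mul_le_mul_of_nonneg_left _ hpre
            apply add_le_add
            · exact mul_le_mul_of_nonneg_left hE (by positivity)
            · exact mul_le_mul_of_nonneg_left hE (by positivity)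
      _ = 3 * t * (A * ((r : ℝ) * q ^ r) + (r : ℝ) * (D * r / n) ^ r) := by
            have x1 : q ^ r = t ^ r * (1 + δ) ^ r * (Real.exp (39 * δ) / (1 - 3 * δ) ^ 2) ^ r /
                2 ^ r := by
              rw [← mul_pow, ← mul_pow, ← div_pow, hqdef]
              congr 1
              ring
            have x2 : (D * r / n) ^ r = t ^ r * (1 + δ) ^ r * (L ^ 3 * Real.exp 38 / 9 * r) ^ r /
                2 ^ r / (n : ℝ) ^ r := by
              rw [← mul_pow, ← mul_pow, ← div_pow, ← div_pow, hD]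
              congr 1
              ring
            rw [x1, x2, pow_succ]
            have hnr : (n : ℝ) ^ r ≠ 0 := by positivity
            have h2r : (2 : ℝ) ^ r ≠ 0 := by positivity
            generalize (L ^ 3 * Real.exp 38 / 9 * (r : ℝ)) ^ r = u1
            generalize (Real.exp (39 * δ) / (1 - 3 * δ) ^ 2) ^ r = u2
            generalize (1 + δ) ^ r = u3
            generalize (n : ℝ) ^ r = u4 at *
            generalize t ^ r = u5
            generalize (2 : ℝ) ^ r = u6 at *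
            field_simp
      _ ≤ 3 * t * (A * ((r : ℝ) * q ^ r) + (r : ℝ) * (1 / 2) ^ r) := by
            have x3 : D * r / n ≤ 1 / 2 := by
              rw [div_le_iff₀ hn0]
              calc D * r ≤ D * (1 / (2 * D) * n) := by gcongr
                _ = 1 / 2 * n := by field_simp
            gcongr
  calc _ ≤ ∑ r ∈ Icc 1 ⌊min (1 / 2) (1 / (2 * D)) * (n : ℝ)⌋₊,
        3 * t * (A * ((r : ℝ) * q ^ r) + (r : ℝ) * (1 / 2) ^ r) := Finset.sum_le_sum hmain
    _ = 3 * t * (A * ∑ r ∈ Icc 1 ⌊min (1 / 2) (1 / (2 * D)) * (n : ℝ)⌋₊, (r : ℝ) * q ^ r +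
        ∑ r ∈ Icc 1 ⌊min (1 / 2) (1 / (2 * D)) * (n : ℝ)⌋₊, (r : ℝ) * (1 / 2) ^ r) := by
          rw [← Finset.mul_sum, Finset.sum_add_distrib, ← Finset.mul_sum]
    _ ≤ 3 * t * (A * C₁ + C₂) := by
          have := hgeo1 ⌊min (1 / 2) (1 / (2 * D)) * (n : ℝ)⌋₊
          have := hgeo2 ⌊min (1 / 2) (1 / (2 * D)) * (n : ℝ)⌋₊
          gcongr
    _ ≤ _ := by linarith

end Pool.Agent.Helper36.AF
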